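import Pool.Agent.Helper73.ERW.Main

/-!
Recurrence-transience dichotomy for excited random walks in i.i.d. uniformly elliptic cookie
environments on an infinite countable abelian group `V`, with steps in a finite set `S` which
generates `V` as a monoid; `V = ℤ^d`, `S = {± e_i}` is the case of the problem.
-/

set_option autoImplicit false

open MeasureTheory ProbabilityTheory Filter

namespace Pool.Agent.Results.MP_055eb9_pr.GroupDichotomy

open Pool.Agent.Helper73.ERW

theorem result {V Ω : Type*} [AddCommGroup V] [Countable V] [Infinite V] [MeasurableSpace V]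
    [MeasurableSingletonClass V] [MeasurableSpace Ω] (S : Finset V)
    (hS : AddSubmonoid.closure (S : Set V) = ⊤) (μ : Measure Ω) [IsProbabilityMeasure μ]
    (ω : Ω → V → S → ℕ → ℝ) (X : ℕ → Ω → V) (hω : Measurable ω) (hX : ∀ n, Measurable (X n))
    (hindep : iIndepFun (fun (z : V) (a : Ω) => ω a z) μ)
    (hident : ∀ z : V, IdentDistrib (fun a => ω a z) (fun a => ω a 0) μ μ)
    (hell : ∃ κ > 0, ∀ᵐ a ∂μ, ∀ (z : V) (e : S) (k : ℕ), κ ≤ ω a z e k)
    (hsum : ∀ᵐ a ∂μ, ∀ (z : V) (k : ℕ), ∑ e : S, ω a z e k = 1)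
    (hstart : ∀ᵐ a ∂μ, X 0 a = 0)
    (hstep : ∀ (n : ℕ) (p : ℕ → V) (e : S) (A : Set (V → S → ℕ → ℝ)), MeasurableSet A →
      μ.real {a | ω a ∈ A ∧ (∀ m ≤ n, X m a = p m) ∧ X (n + 1) a = p n + e} =
        ∫ a in {a | ω a ∈ A ∧ ∀ m ≤ n, X m a = p m},
          ω a (p n) e {m : ℕ | m < n ∧ p m = p n}.ncard ∂μ) :
    (∀ᵐ a ∂μ, ∀ z : V, ∃ᶠ n in atTop, X n a = z) ∨
      (∀ᵐ a ∂μ, Tendsto (fun n => X n a) atTop cofinite) := by
  classical
  obtain ⟨κ, hκ, hell⟩ := hell
  have hSne : Nonempty S := by
    by_contra hcon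
    have hS0 : S = ∅ := by
      rw [Finset.eq_empty_iff_forall_notMem]
      intro v hv
      exact hcon ⟨⟨v, hv⟩⟩
    rw [hS0, Finset.coe_empty, AddSubmonoid.closure_empty] at hS
    have : Subsingleton V := by
      constructor
      intro u v
      have hu : u ∈ (⊤ : AddSubmonoid V) := AddSubmonoid.mem_top u
      have hv : v ∈ (⊤ : AddSubmonoid V) := AddSubmonoid.mem_top v
      rw [← hS, AddSubmonoid.mem_bot] at hu hv
      rw [hu, hv]
    exact not_finite V
  let _ : MeasurableSpace S := ⊤
  have hms : MeasurableSingletonClass S := ⟨fun _ => MeasurableSpace.measurableSet_top⟩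
  have hcl : AddSubmonoid.closure (Set.range (fun e : S => (e : V))) = ⊤ := by
    have : Set.range (fun e : S => (e : V)) = (S : Set V) := by
      ext v
      simp
    rw [this]
    exact hS
  have hcnt : ∀ (p : ℕ → V) (n : ℕ), {m : ℕ | m < n ∧ p m = p n}.ncard = cnt p n := by
    intro p n
    unfold cnt
    rw [← Set.ncard_coe_finset]
    congr 1
    ext m
    simp
  have key := erw_zero_one (fun e : S => (e : V)) Subtype.val_injective hcl hω hX hindep hident hκ
    hell hsum hstart (by
      intro n p e A hA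
      rw [hstep n p e A hA, hcnt p n])
  refine key.imp id fun h => ?_
  filter_upwards [h] with a ha
  exact le_cofinite_iff_eventually_ne.mpr fun z => Filter.eventually_map.mpr (ha z)

end Pool.Agent.Results.MP_055eb9_pr.GroupDichotomy
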